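import Pool.Agent.Helper42.Haag.Defs
import Pool.Agent.Helper42.Haag.FinB

set_option autoImplicit false

/-!
# Maximal Haagerup subgroups of `SL_3(ℤ)`: the horospherical case

Let `P = ℤ² ⋊ GL_2(ℤ)` be the stabiliser in `SL_3(ℤ)` of the plane spanned by `e₁, e₂`, with
unipotent radical `U(ℤ) = {1 + a E₁₃ + b E₂₃} ≅ ℤ²`. For a subgroup `C` of `GL_2(ℤ)` write
`ℤ² ⋊ C` for the group of all elements of `P` with linear part in `C`.

Theorem: let `K ≤ SL_3(ℤ)` be any subgroup containing a rank two subgroup of `U(ℤ)`. Then `K` is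
Haagerup if and only if `K ≤ ℤ² ⋊ C` for a virtually abelian (equivalently, amenable) subgroup `C`
of `GL_2(ℤ)`, and `K` is a maximal Haagerup subgroup of `SL_3(ℤ)` if and only if `K = ℤ² ⋊ C` for a
maximal virtually abelian subgroup `C` of `GL_2(ℤ)`.

No assumption `K ≤ P` is made. All ingredients are proved: a group containing `ℤ²` normalised by
elements acting through a hyperbolic pair of `GL_2(ℤ)` is not Haagerup (Burger's criterion, by
Schoenberg, GNS, a spectral functional on the dual torus and ping-pong), subgroups of `GL_2(ℤ)`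
without hyperbolic pairs are virtually abelian, Følner groups are Haagerup.
-/

namespace Pool.Agent.Results.MP_5045a8_al.Horospherical

open Pool.Agent.Helper42.Haag

/-- Classification of the Haagerup, and of the maximal Haagerup, subgroups `K` of `SL_3(ℤ)` that
contain a rank two subgroup of the unipotent radical `U(ℤ) ≅ ℤ²` of `P`. -/
theorem result (K : Subgroup SL3) (hR : RankTwo K) :
    (Haagerup K ↔ ∃ C : Subgroup (GL (Fin 2) ℤ), VirtAbelian C ∧ K ≤ affineOver C) ∧
    (IsMaxHaagerup K ↔ ∃ C : Subgroup (GL (Fin 2) ℤ), Maximal VirtAbelian C ∧ K = affineOver C) :=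
  ⟨haagerup_iff_of_rankTwo hR,
    fun h => (horospherical K).1 ⟨h, hR⟩, fun h => ((horospherical K).2 h).1⟩

end Pool.Agent.Results.MP_5045a8_al.Horospherical
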