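import Pool.Agent.Helper42.Haag.Defs
import Pool.Agent.Helper42.Haag.Defs2
import Pool.Agent.Helper42.Haag.Pair
import Pool.Agent.Helper42.Haag.G2
import Pool.Agent.Helper42.Haag.FinB

set_option autoImplicit false

/-!
# Maximal Haagerup subgroups of `SL_3(ℤ)`: stabilisers of a plane and a complementary line

For an integer covector `λ` and an integer vector `μ` with `λ(μ) ≠ 0` let `H_{λ,μ}` be the
stabiliser in `SL_3(ℤ)` of the plane `ker λ` and of the line `ℚ μ` (a group commensurable with
`GL_2(ℤ)`; for `λ = e₃*`, `μ = e₃` it is the block diagonal copy of `GL_2(ℤ)`).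

Theorem: let `K ≤ SL_3(ℤ)` be any subgroup such that `K ∩ H_{λ,μ}` has finite index in `H_{λ,μ}`.
Then `K` has the Haagerup property if and only if `K ≤ H_{λ,μ}`, and `K` is a maximal Haagerup
subgroup if and only if `K = H_{λ,μ}`.

So all the groups `H_{λ,μ}` are maximal Haagerup subgroups, and each of them is the only maximal
Haagerup subgroup that contains one of its own finite index subgroups (in particular a thin
subgroup of `SL_3(ℤ)` containing a finite index subgroup of a block `SL_2(ℤ)` is never Haagerup).

Sketch. A Haagerup subgroup `K` containing two independent transvections `1 + x ⊗ ε`, `1 + y ⊗ ε`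
with the same covector preserves the plane `ker ε`: otherwise `K` contains a copy of `ℤ²` normalised
by two unipotent elements acting on it as `[[1,-m],[0,1]]` and `[[1,0],[-m,1]]`, `m ≠ 0`, and such a
group is not Haagerup (Schoenberg + GNS + spectral functional on the dual torus + ping-pong on the
projective line, as in Burger's criterion, all proved here). Dually for lines. For `g ∈ K` and `w'`
in `ker λ`, the transvections of `K` attached to `w'` and to the projection `w` of `g w'` to `ker λ`
have a commutator which is a transvection along `g w'` with the covector of `w`; this produces two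
independent transvections with the same covector unless `g` preserves the plane or the line.
-/

namespace Pool.Agent.Results.MP_5045a8_al.SplitStabilizers

open Pool.Agent.Helper42.Haag

/-- If `K ∩ H_{λ,μ}` has finite index in `H_{λ,μ}` (`λ(μ) ≠ 0`), then `K` is Haagerup iff
`K ≤ H_{λ,μ}`, and `K` is a maximal Haagerup subgroup of `SL_3(ℤ)` iff `K = H_{λ,μ}`. -/
theorem result (lam mu : Fin 3 → ℤ) (h : lam ⬝ᵥ mu ≠ 0) (K : Subgroup SL3)
    (hK : K.relIndex (pairStab lam mu) ≠ 0) :
    (Haagerup K ↔ K ≤ pairStab lam mu) ∧ (IsMaxHaagerup K ↔ K = pairStab lam mu) := by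
  have key : ∀ K : Subgroup SL3, K.relIndex (pairStab lam mu) ≠ 0 →
      (Haagerup K ↔ K ≤ pairStab lam mu) := fun K hK =>
    ⟨le_pairStab h K hK, fun hle => haagerup_of_le hle (haagerup_pairStab lam mu h)⟩
  refine ⟨key K hK, ⟨?_, ?_⟩⟩
  · rintro ⟨h1, h2⟩
    rcases ((key K hK).1 h1).eq_or_lt with e | e
    · exact e
    · exact absurd (haagerup_pairStab lam mu h) (h2 _ e)
  · rintro rfl
    refine ⟨haagerup_pairStab lam mu h, fun K' hlt hH => ?_⟩
    have : K'.relIndex (pairStab lam mu) ≠ 0 := by
      rw [Subgroup.relIndex_eq_one.2 hlt.le]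
      exact one_ne_zero
    exact not_le_of_gt hlt ((key K' this).1 hH)

end Pool.Agent.Results.MP_5045a8_al.SplitStabilizers
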